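import Mathlib

set_option autoImplicit false
open Polynomial

namespace Pool.Agent.helper89.QT

/-- substitution `x ↦ z x` -/
noncomputable def s (z : ℂ) : Polynomial ℂ →+* Polynomial ℂ :=
  Polynomial.compRingHom (C z * X)

theorem s_apply (z : ℂ) (p : Polynomial ℂ) : s z p = p.comp (C z * X) := rfl

theorem s_s (z w : ℂ) (p : Polynomial ℂ) : s z (s w p) = s (z * w) p := by
  simp only [s_apply, Polynomial.comp_assoc]
  congr 1
  simp only [mul_comp, C_comp, X_comp, C_mul]
  ring

theorem s_one (p : Polynomial ℂ) : s 1 p = p := by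
  simp [s_apply]

theorem s_ne_zero {z : ℂ} (hz : z ≠ 0) {p : Polynomial ℂ} (hp : p ≠ 0) : s z p ≠ 0 := by
  intro h
  apply hp
  have := s_s z⁻¹ z p
  rw [h, inv_mul_cancel₀ hz, s_one] at this
  simpa using this.symm

/-- the extension of `s` to `ℂ[x][y]` -/
noncomputable def S (z : ℂ) : Polynomial (Polynomial ℂ) →+* Polynomial (Polynomial ℂ) :=
  Polynomial.mapRingHom (s z)

theorem coeff_S (z : ℂ) (p : Polynomial (Polynomial ℂ)) (j : ℕ) :
    (S z p).coeff j = s z (p.coeff j) := by
  simp [S]

theorem S_S (z w : ℂ) (p : Polynomial (Polynomial ℂ)) : S z (S w p) = S (z * w) p := by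
  ext1 j
  simp only [coeff_S, s_s]

set_option linter.unusedSectionVars false

variable {N : ℕ} [NeZero N]

noncomputable def ζ (N : ℕ) : ℂ := Complex.exp (2 * Real.pi * Complex.I / N)

theorem ζ_prim (N : ℕ) [NeZero N] : IsPrimitiveRoot (ζ N) N :=
  Complex.isPrimitiveRoot_exp N (NeZero.ne N)

noncomputable def rt (r : ZMod N) : ℂ := (ζ N) ^ r.val

theorem rt_add (r t : ZMod N) : rt (r + t) = rt r * rt t := by
  unfold rt
  rw [ZMod.val_add, ← pow_add]
  exact (pow_eq_pow_mod _ (ζ_prim N).pow_eq_one).symm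

theorem rt_ne_zero (r : ZMod N) : rt r ≠ 0 :=
  pow_ne_zero _ ((ζ_prim N).ne_zero (NeZero.ne N))

theorem rt_inj : Function.Injective (rt : ZMod N → ℂ) := by
  intro r t h
  have := (ζ_prim N).pow_inj (ZMod.val_lt r) (ZMod.val_lt t) h
  exact ZMod.val_injective N this

/-- `σ r` : `x ↦ ζ^r x` on `ℂ[x][y]` -/
noncomputable def σ (r : ZMod N) : Polynomial (Polynomial ℂ) →+* Polynomial (Polynomial ℂ) :=
  S (rt r)

theorem σ_add (r t : ZMod N) (p : Polynomial (Polynomial ℂ)) : σ (r + t) p = σ r (σ t p) := by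
  unfold σ
  rw [S_S, rt_add]

theorem coeff_σ (r : ZMod N) (p : Polynomial (Polynomial ℂ)) (j : ℕ) :
    (σ r p).coeff j = s (rt r) (p.coeff j) := coeff_S _ _ _

/-- exponents of `y` are congruent to `c` -/
def Supp (p : Polynomial (Polynomial ℂ)) (c : ZMod N) : Prop :=
  ∀ j : ℕ, p.coeff j ≠ 0 → (j : ZMod N) = c

theorem Supp.σ {p : Polynomial (Polynomial ℂ)} {c : ZMod N} (h : Supp p c) (r : ZMod N) :
    Supp (QT.σ r p) c := by
  intro j hj
  apply h
  intro h0
  apply hj
  rw [coeff_σ, h0, map_zero]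

/-- elements of the order: `A_{r,c} = σ^r (g (c - r))` -/
noncomputable def mk (g : ZMod N → Polynomial (Polynomial ℂ)) :
    Matrix (ZMod N) (ZMod N) (Polynomial (Polynomial ℂ)) :=
  Matrix.of fun r c => σ r (g (c - r))

theorem coeff_mul_min (G W : Polynomial (Polynomial ℂ)) (a b : ℕ)
    (hG : ∀ j < a, G.coeff j = 0) (hW : ∀ j < b, W.coeff j = 0) :
    (G * W).coeff (a + b) = G.coeff a * W.coeff b := by
  rw [Polynomial.coeff_mul]
  rw [Finset.sum_eq_single (a, b)]
  · rintro ⟨i, j⟩ hij hne
    rw [Finset.HasAntidiagonal.mem_antidiagonal] at hij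
    simp only at hij ⊢
    rcases lt_trichotomy i a with h | h | h
    · rw [hG i h, zero_mul]
    · exfalso; apply hne; subst h; congr 1; omega
    · rw [hW j (by omega), mul_zero]
  · intro h
    exact absurd (Finset.HasAntidiagonal.mem_antidiagonal.mpr
      (show (a, b).1 + (a, b).2 = a + b from rfl)) h

theorem exists_min {ι : Type*} (g : ι → Polynomial (Polynomial ℂ)) (hg : g ≠ 0) :
    ∃ (a : ℕ) (c : ι), (g c).coeff a ≠ 0 ∧ ∀ c', ∀ j < a, (g c').coeff j = 0 := by
  classical
  have hex : ∃ a : ℕ, ∃ c, (g c).coeff a ≠ 0 := by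
    by_contra hcon
    push Not at hcon
    apply hg
    funext c
    ext1 j
    simp [hcon j c]
  refine ⟨Nat.find hex, (Nat.find_spec hex).choose, (Nat.find_spec hex).choose_spec, ?_⟩
  intro c' j hj
  have := Nat.find_min hex hj
  push Not at this
  exact this c'

theorem det_mk_ne_zero (g : ZMod N → Polynomial (Polynomial ℂ)) (hs : ∀ c, Supp (g c) c)
    (hg : g ≠ 0) : (mk g).det ≠ 0 := by
  intro hdet
  obtain ⟨w, hw, hw0⟩ := Matrix.exists_mulVec_eq_zero_iff.mpr hdet
  obtain ⟨a, c₀, ha, hamin⟩ := exists_min g hg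
  obtain ⟨b, c₁, hb, hbmin⟩ := exists_min w hw
  have h1 := congrFun hw0 (c₁ - c₀)
  have h2 := congrArg (fun p => Polynomial.coeff p (a + b)) h1
  simp only [Matrix.mulVec, dotProduct, mk, Matrix.of_apply, Pi.zero_apply, coeff_zero,
    Polynomial.finsetSum_coeff] at h2
  rw [Finset.sum_eq_single c₁] at h2
  · rw [coeff_mul_min _ _ a b _ (hbmin c₁), coeff_σ, sub_sub_cancel] at h2
    · rcases mul_eq_zero.mp h2 with h3 | h3
      · exact s_ne_zero (rt_ne_zero _) ha h3
      · exact hb h3
    · intro j hj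
      rw [coeff_σ, hamin _ j hj, map_zero]
  · intro c _ hc
    rw [coeff_mul_min _ _ a b _ (hbmin c), coeff_σ]
    · have : (g (c - (c₁ - c₀))).coeff a = 0 := by
        by_contra hne
        have e1 := hs _ a hne
        have e2 := hs _ a ha
        apply hc
        have : c - (c₁ - c₀) = c₀ := by rw [← e1, e2]
        calc c = (c - (c₁ - c₀)) + (c₁ - c₀) := by ring
          _ = c₀ + (c₁ - c₀) := by rw [this]
          _ = c₁ := by ring
      rw [this, map_zero, zero_mul]
    · intro j hj
      rw [coeff_σ, hamin _ j hj, map_zero]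
  · intro h; exact absurd (Finset.mem_univ _) h


/-- homogeneous piece: keep the exponents of `y` congruent to `t` -/
noncomputable def piece (t : ZMod N) (p : Polynomial (Polynomial ℂ)) :
    Polynomial (Polynomial ℂ) :=
  ∑ j ∈ p.support.filter (fun j : ℕ => (j : ZMod N) = t), monomial j (p.coeff j)

theorem coeff_piece (t : ZMod N) (p : Polynomial (Polynomial ℂ)) (j : ℕ) :
    (piece t p).coeff j = if (j : ZMod N) = t then p.coeff j else 0 := by
  unfold piece
  rw [Polynomial.finsetSum_coeff]
  simp only [coeff_monomial]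
  rw [Finset.sum_ite_eq']
  simp only [Finset.mem_filter, mem_support_iff]
  by_cases h : (j : ZMod N) = t
  · by_cases h2 : p.coeff j = 0
    · simp [h2]
    · simp [h, h2]
  · simp [h]

theorem piece_supp (t : ZMod N) (p : Polynomial (Polynomial ℂ)) : Supp (piece t p) t := by
  intro j hj
  rw [coeff_piece] at hj
  by_contra h
  simp [h] at hj

theorem piece_mul (t c : ZMod N) (p q : Polynomial (Polynomial ℂ)) (hq : Supp q c) :
    piece (t + c) (p * q) = piece t p * q := by
  ext1 n
  rw [coeff_piece, Polynomial.coeff_mul, Polynomial.coeff_mul]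
  split_ifs with h
  · apply Finset.sum_congr rfl
    rintro ⟨i, j⟩ hij
    rw [Finset.HasAntidiagonal.mem_antidiagonal] at hij
    simp only at hij ⊢
    by_cases hj : q.coeff j = 0
    · simp [hj]
    · have e := hq j hj
      rw [coeff_piece, if_pos]
      have : ((i : ZMod N) + (j : ZMod N)) = t + c := by
        rw [← h, ← hij]; push_cast; rfl
      rw [e] at this
      exact add_right_cancel this
  · symm
    apply Finset.sum_eq_zero
    rintro ⟨i, j⟩ hij
    rw [Finset.HasAntidiagonal.mem_antidiagonal] at hij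
    simp only at hij ⊢
    by_cases hj : q.coeff j = 0
    · simp [hj]
    · have e := hq j hj
      rw [coeff_piece, if_neg, zero_mul]
      intro h2
      apply h
      rw [← hij, ← h2, ← e]
      push_cast
      rfl

theorem piece_sum {ι : Type*} (t : ZMod N) (F : Finset ι) (p : ι → Polynomial (Polynomial ℂ)) :
    piece t (∑ i ∈ F, p i) = ∑ i ∈ F, piece t (p i) := by
  ext1 j
  simp only [coeff_piece, Polynomial.finsetSum_coeff]
  split_ifs <;> simp

theorem piece_zero (t : ZMod N) : piece t (0 : Polynomial (Polynomial ℂ)) = 0 := by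
  ext1 j
  simp [coeff_piece]

section main

variable {κ : Type*} [Fintype κ] [DecidableEq κ]

/-- block matrices over the order -/
noncomputable def blk (h : κ → κ → ZMod N → Polynomial (Polynomial ℂ)) :
    Matrix (κ × ZMod N) (κ × ZMod N) (Polynomial (Polynomial ℂ)) :=
  Matrix.of fun p q => σ p.2 (h p.1 q.1 (q.2 - p.2))

/-- if the block matrix is singular, it is killed on the left by a nonzero block row over the
order -/
theorem exists_row (h : κ → κ → ZMod N → Polynomial (Polynomial ℂ))
    (hs : ∀ k l c, Supp (h k l c) c) (hdet : (blk h).det = 0) :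
    ∃ g : κ → ZMod N → Polynomial (Polynomial ℂ), (∀ k c, Supp (g k c) c) ∧ g ≠ 0 ∧
      (Matrix.of fun (r : ZMod N) (q : κ × ZMod N) => σ r (g q.1 (q.2 - r))) * blk h = 0 := by
  obtain ⟨w, hw, hw0⟩ := Matrix.exists_vecMul_eq_zero_iff.mpr hdet
  -- a nonzero coefficient
  have hex : ∃ (p : κ × ZMod N) (j : ℕ), (w p).coeff j ≠ 0 := by
    by_contra hcon
    push Not at hcon
    apply hw
    funext p
    ext1 j
    simp [hcon p j]
  obtain ⟨⟨k₀, r₀⟩, j₀, hj₀⟩ := hex
  set t : ZMod N := (j₀ : ZMod N) - r₀ with ht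
  set e : ℕ := (-t).val with he
  have hecast : (e : ZMod N) = -t := by rw [he]; exact ZMod.natCast_zmod_val _
  refine ⟨fun k c => X ^ e * piece (c + t) (w (k, c)), ?_, ?_, ?_⟩
  · intro k c j hj
    change (X ^ e * piece (c + t) (w (k, c))).coeff j ≠ 0 at hj
    rw [mul_comm, coeff_mul_X_pow'] at hj
    split_ifs at hj with hle
    · have := piece_supp _ _ _ hj
      have h3 : ((j - e : ℕ) : ZMod N) = (j : ZMod N) - e := by
        rw [Nat.cast_sub hle]
      rw [h3, hecast] at this
      calc (j : ZMod N) = ((j : ZMod N) - -t) - t := by ring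
        _ = (c + t) - t := by rw [this]
        _ = c := by ring
    · exact absurd rfl hj
  · intro h0
    have h1 := congrFun (congrFun h0 k₀) r₀
    simp only [Pi.zero_apply] at h1
    have h2 := congrArg (fun p => Polynomial.coeff p (j₀ + e)) h1
    simp only [coeff_zero] at h2
    rw [mul_comm, coeff_mul_X_pow, coeff_piece, if_pos] at h2
    · exact hj₀ h2
    · rw [ht]; ring
  · -- the product vanishes
    have key : ∀ (l : κ) (c : ZMod N), ∑ k : κ, ∑ c' : ZMod N,
        (X ^ e * piece (c' + t) (w (k, c'))) * σ c' (h k l (c - c')) = 0 := by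
      intro l c
      have h1 := congrFun hw0 (l, c)
      simp only [Matrix.vecMul, dotProduct, blk, Matrix.of_apply, Pi.zero_apply] at h1
      rw [Fintype.sum_prod_type] at h1
      have h2 := congrArg (piece (c + t)) h1
      rw [piece_zero, piece_sum] at h2
      have h3 : ∀ k : κ, piece (c + t) (∑ c' : ZMod N, w (k, c') * σ c' (h k l (c - c'))) =
          ∑ c' : ZMod N, piece (c' + t) (w (k, c')) * σ c' (h k l (c - c')) := by
        intro k
        rw [piece_sum]
        apply Finset.sum_congr rfl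
        intro c' _
        have : c + t = (c' + t) + (c - c') := by ring
        rw [this, piece_mul _ _ _ _ ((hs k l (c - c')).σ c')]
      simp only [h3] at h2
      calc ∑ k : κ, ∑ c' : ZMod N, (X ^ e * piece (c' + t) (w (k, c'))) * σ c' (h k l (c - c'))
          = X ^ e * ∑ k : κ, ∑ c' : ZMod N,
              piece (c' + t) (w (k, c')) * σ c' (h k l (c - c')) := by
            rw [Finset.mul_sum]
            apply Finset.sum_congr rfl
            intro k _
            rw [Finset.mul_sum]
            apply Finset.sum_congr rfl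
            intro c' _
            ring
        _ = 0 := by rw [h2, mul_zero]
    ext1 r q
    obtain ⟨l, c⟩ := q
    rw [Matrix.mul_apply, Fintype.sum_prod_type]
    simp only [blk, Matrix.of_apply, Matrix.zero_apply]
    have h4 : ∀ k : κ, ∑ c' : ZMod N, σ r (X ^ e * piece (c' - r + t) (w (k, c' - r))) *
        σ c' (h k l (c - c')) = σ r (∑ c' : ZMod N, (X ^ e * piece (c' + t) (w (k, c'))) *
          σ c' (h k l ((c - r) - c'))) := by
      intro k
      rw [map_sum]
      refine Eq.trans ?_ (Equiv.sum_comp (Equiv.subRight r) (fun c' => σ r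
        (X ^ e * piece (c' + t) (w (k, c')) * σ c' (h k l (c - r - c')))))
      apply Finset.sum_congr rfl
      intro c' _
      simp only [Equiv.subRight_apply]
      rw [map_mul (σ r) (X ^ e * piece (c' - r + t) (w (k, c' - r)))]
      congr 1
      rw [← σ_add]
      have e1 : r + (c' - r) = c' := by ring
      have e2 : c - r - (c' - r) = c - c' := by ring
      rw [e1, e2]
    simp only [h4]
    rw [← map_sum, key, map_zero]


theorem rank_blk (h : κ → κ → ZMod N → Polynomial (Polynomial ℂ))
    (hs : ∀ k l c, Supp (h k l c) c) (hdet : (blk h).det = 0) :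
    ((blk h).map (algebraMap (Polynomial (Polynomial ℂ))
      (FractionRing (Polynomial (Polynomial ℂ))))).rank + N ≤ Fintype.card κ * N := by
  obtain ⟨g, hg, hne, hDM⟩ := exists_row h hs hdet
  set φ := algebraMap (Polynomial (Polynomial ℂ)) (FractionRing (Polynomial (Polynomial ℂ)))
    with hφ
  have hφi : Function.Injective φ := IsFractionRing.injective _ _
  set D : Matrix (ZMod N) (κ × ZMod N) (Polynomial (Polynomial ℂ)) :=
    Matrix.of fun (r : ZMod N) (q : κ × ZMod N) => σ r (g q.1 (q.2 - r)) with hD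
  have h1 : (D.map φ) * ((blk h).map φ) = 0 := by
    rw [← Matrix.map_mul, hDM]
    ext i j
    simp
  have h2 := Matrix.rank_add_rank_le_card_of_mul_eq_zero h1
  rw [Fintype.card_prod, ZMod.card] at h2
  have hk : ∃ k, g k ≠ 0 := by
    by_contra hcon
    push Not at hcon
    exact hne (funext hcon)
  obtain ⟨k₀, hk₀⟩ := hk
  have h3 : (mk (g k₀)).det ≠ 0 := det_mk_ne_zero _ (hg k₀) hk₀
  have h4 : ((mk (g k₀)).map φ).rank = N := by
    rw [Matrix.rank_of_isUnit, ZMod.card]
    rw [Matrix.isUnit_iff_isUnit_det, isUnit_iff_ne_zero]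
    have : ((mk (g k₀)).map φ).det = φ (mk (g k₀)).det := by
      rw [RingHom.map_det]; rfl
    rw [this]
    intro h0
    exact h3 (hφi (by rw [h0, map_zero]))
  have h5 : (D.map φ) * (Matrix.of fun (p : κ × ZMod N) (c : ZMod N) =>
      if p = (k₀, c) then (1 : FractionRing (Polynomial (Polynomial ℂ))) else 0) =
      (mk (g k₀)).map φ := by
    ext r c
    rw [Matrix.mul_apply]
    simp only [Matrix.map_apply, Matrix.of_apply, mul_ite, mul_one, mul_zero, hD, mk]
    rw [Finset.sum_ite_eq']
    simp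
  have h6 := Matrix.rank_mul_le_left (D.map φ) (Matrix.of fun (p : κ × ZMod N) (c : ZMod N) =>
      if p = (k₀, c) then (1 : FractionRing (Polynomial (Polynomial ℂ))) else 0)
  rw [h5, h4] at h6
  omega

end main

theorem exists_UV {m : Type*} [Fintype m] [DecidableEq m] (A : Matrix m m ℂ) (r : ℕ)
    (hAr : A.rank = r) :
    ∃ (U : Matrix (Fin r) m ℂ) (V : Matrix m (Fin r) ℂ), U * A * V = 1 := by
  set f : (m → ℂ) →ₗ[ℂ] (m → ℂ) := Matrix.toLin' A with hf
  have hr : Module.finrank ℂ (LinearMap.range f) = r := by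
    rw [← hAr, Matrix.rank, hf]; rfl
  obtain ⟨g, hg⟩ := LinearMap.exists_rightInverse_of_surjective f.rangeRestrict
    (LinearMap.range_rangeRestrict f)
  obtain ⟨p, hp⟩ := LinearMap.exists_leftInverse_of_injective (LinearMap.range f).subtype
    (Submodule.ker_subtype _)
  have e : (Fin r → ℂ) ≃ₗ[ℂ] LinearMap.range f :=
    LinearEquiv.ofFinrankEq _ _ (by rw [hr]; simp)
  refine ⟨LinearMap.toMatrix' (e.symm.toLinearMap ∘ₗ p), LinearMap.toMatrix' (g ∘ₗ e.toLinearMap),
    ?_⟩
  have hA : A = LinearMap.toMatrix' f := by rw [hf, LinearMap.toMatrix'_toLin']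
  conv_lhs => rw [hA]
  rw [← LinearMap.toMatrix'_comp, ← LinearMap.toMatrix'_comp]
  have : (e.symm.toLinearMap ∘ₗ p) ∘ₗ f ∘ₗ (g ∘ₗ e.toLinearMap) = LinearMap.id := by
    apply LinearMap.ext
    intro x
    simp only [LinearMap.comp_apply, LinearEquiv.coe_coe, LinearMap.id_coe, id_eq]
    have h1 : f (g (e x)) = ((e x : LinearMap.range f) : m → ℂ) := by
      have := congrArg (fun F => ((F (e x) : LinearMap.range f) : m → ℂ)) hg
      simpa using this
    rw [h1]
    have h2 : p ((e x : LinearMap.range f) : m → ℂ) = e x := by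
      have := LinearMap.congr_fun hp (e x)
      simpa using this
    rw [h2]
    simp
  rw [LinearMap.comp_assoc, this, LinearMap.toMatrix'_id]

/-- evaluation at a point -/
noncomputable def ev (x y : ℂ) : Polynomial (Polynomial ℂ) →+* ℂ :=
  (Polynomial.evalRingHom x).comp (Polynomial.evalRingHom (C y))

theorem ev_apply (x y : ℂ) (p : Polynomial (Polynomial ℂ)) :
    ev x y p = (p.eval (C y)).eval x := rfl

theorem exists_ev_ne_zero (p : Polynomial (Polynomial ℂ)) (hp : p ≠ 0) :
    ∃ x y : ℂ, ev x y p ≠ 0 := by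
  by_contra hcon
  push Not at hcon
  apply hp
  apply Polynomial.eq_zero_of_infinite_isRoot
  have h1 : Set.range (fun y : ℂ => (C y : Polynomial ℂ)) ⊆ {q | IsRoot p q} := by
    rintro _ ⟨y, rfl⟩
    simp only [Set.mem_ofPred_eq, IsRoot.def]
    apply Polynomial.funext
    intro x
    have := hcon x y
    rw [ev_apply] at this
    simpa using this
  exact (Set.infinite_range_of_injective Polynomial.C_injective).mono h1

theorem Supp.sum {ι : Type*} (F : Finset ι) (p : ι → Polynomial (Polynomial ℂ)) (c : ZMod N)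
    (h : ∀ i ∈ F, Supp (p i) c) : Supp (∑ i ∈ F, p i) c := by
  intro j hj
  rw [Polynomial.finsetSum_coeff] at hj
  obtain ⟨i, hi, hne⟩ := Finset.exists_ne_zero_of_sum_ne_zero hj
  exact h i hi j hne

theorem Supp.const_mul (u : ℂ) (p : Polynomial (Polynomial ℂ)) (c : ZMod N)
    (h : Supp p c) : Supp (C (C u) * p) c := by
  intro j hj
  rw [Polynomial.coeff_C_mul] at hj
  exact h j (right_ne_zero_of_mul hj)

theorem σ_CC (r : ZMod N) (u : ℂ) :
    σ r (C (C u) : Polynomial (Polynomial ℂ)) = C (C u) := by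
  simp [σ, S, s]

theorem main_zmod {κ ν : Type*} [Fintype κ] [DecidableEq κ] [Fintype ν]
    (a : ν → Matrix κ κ ℂ) (X' : ν → Matrix (ZMod N) (ZMod N) ℂ)
    (h : Fintype.card κ * N < (∑ i, Matrix.kronecker (a i) (X' i)).rank + N) :
    ∃ Y : ν → Matrix (ZMod N) (ZMod N) ℂ, (∑ i, Matrix.kronecker (a i) (Y i)).det ≠ 0 := by
  classical
  -- interpolation
  have hint : ∀ (i : ν) (c : ZMod N), ∃ f : Polynomial ℂ, ∀ r : ZMod N,
      f.eval (rt r) = X' i r (r + c) := by
    intro i c
    refine ⟨Lagrange.interpolate Finset.univ (rt : ZMod N → ℂ) (fun r => X' i r (r + c)), ?_⟩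
    intro r
    exact Lagrange.eval_interpolate_at_node _ (rt_inj.injOn) (Finset.mem_univ r)
  choose f hf using hint
  set g : ν → ZMod N → Polynomial (Polynomial ℂ) := fun i c => monomial c.val (f i c) with hg
  have hgs : ∀ i c, Supp (g i c) c := by
    intro i c j hj
    rw [hg] at hj
    simp only [coeff_monomial] at hj
    split_ifs at hj with hjc
    · rw [← hjc]; exact ZMod.natCast_zmod_val _
    · exact absurd rfl hj
  set H : κ → κ → ZMod N → Polynomial (Polynomial ℂ) :=
    fun k l c => ∑ i, C (C (a i k l)) * g i c with hH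
  have hHs : ∀ k l c, Supp (H k l c) c := by
    intro k l c
    apply Supp.sum
    intro i _
    exact Supp.const_mul _ _ _ (hgs i c)
  have hev : ∀ x y : ℂ, (blk H).map (ev x y) = ∑ i, Matrix.kronecker (a i)
      (Matrix.of fun (r c : ZMod N) => ev x y (σ r (g i (c - r)))) := by
    intro x y
    ext ⟨k, r⟩ ⟨l, c⟩
    simp only [blk, hH, Matrix.map_apply, Matrix.of_apply, map_sum, map_mul, σ_CC,
      Matrix.sum_apply, Matrix.kronecker_apply]
    apply Finset.sum_congr rfl
    intro i _
    congr 1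
    simp [ev_apply]
  have hev1 : (blk H).map (ev 1 1) = ∑ i, Matrix.kronecker (a i) (X' i) := by
    rw [hev]
    apply Finset.sum_congr rfl
    intro i _
    congr 1
    ext r c
    simp only [Matrix.of_apply, ev_apply, hg, σ, S, Polynomial.coe_mapRingHom,
      Polynomial.map_monomial, Polynomial.eval_monomial]
    simp only [map_one, one_pow, mul_one, s_apply, Polynomial.eval_comp, Polynomial.eval_mul,
      Polynomial.eval_C, Polynomial.eval_X]
    rw [hf]
    congr 1
    ring
  have hdet : (blk H).det ≠ 0 := by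
    intro h0
    have h1 := rank_blk H hHs h0
    set φ := algebraMap (Polynomial (Polynomial ℂ)) (FractionRing (Polynomial (Polynomial ℂ)))
      with hφ
    have hφi : Function.Injective φ := IsFractionRing.injective _ _
    obtain ⟨r₀, hr₀⟩ : ∃ r₀, (∑ i, Matrix.kronecker (a i) (X' i)).rank = r₀ := ⟨_, rfl⟩
    obtain ⟨U, V, hUV⟩ := exists_UV (∑ i, Matrix.kronecker (a i) (X' i)) r₀ hr₀
    rw [hr₀] at h
    set cc : ℂ → Polynomial (Polynomial ℂ) := fun u => C (C u) with hcc
    have h2 : ((U.map cc) * blk H * (V.map cc)).det ≠ 0 := by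
      intro h3
      have h4 := congrArg (ev 1 1) h3
      rw [map_zero, RingHom.map_det, RingHom.mapMatrix_apply, Matrix.map_mul, Matrix.map_mul,
        hev1] at h4
      have hU : (U.map cc).map (ev 1 1) = U := by
        ext i j; simp [hcc, ev_apply]
      have hV : (V.map cc).map (ev 1 1) = V := by
        ext i j; simp [hcc, ev_apply]
      rw [hU, hV, hUV, Matrix.det_one] at h4
      exact one_ne_zero h4
    have h5 : r₀ ≤ ((blk H).map φ).rank := by
      have h6 : (((U.map cc) * blk H * (V.map cc)).map φ).rank = r₀ := by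
        rw [Matrix.rank_of_isUnit, Fintype.card_fin]
        rw [Matrix.isUnit_iff_isUnit_det, isUnit_iff_ne_zero]
        have : (((U.map cc) * blk H * (V.map cc)).map φ).det =
            φ ((U.map cc) * blk H * (V.map cc)).det := by
          rw [RingHom.map_det]; rfl
        rw [this]
        intro h0
        exact h2 (hφi (by rw [h0, map_zero]))
      rw [Matrix.map_mul, Matrix.map_mul] at h6
      calc r₀ = _ := h6.symm
        _ ≤ ((U.map cc).map φ * (blk H).map φ).rank := Matrix.rank_mul_le_left _ _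
        _ ≤ ((blk H).map φ).rank := Matrix.rank_mul_le_right _ _
    omega
  obtain ⟨x, y, hxy⟩ := exists_ev_ne_zero _ hdet
  refine ⟨fun i => Matrix.of fun (r c : ZMod N) => ev x y (σ r (g i (c - r))), ?_⟩
  rw [← hev, ← RingHom.mapMatrix_apply, ← RingHom.map_det]
  exact hxy

/-- small corank of some blow-up of size `N` implies an invertible blow-up of size `N`. -/
theorem exists_det_ne_zero {κ ν : Type*} [Fintype κ] [DecidableEq κ] [Fintype ν]
    (a : ν → Matrix κ κ ℂ) (N : ℕ) (hN : 0 < N) (X : ν → Matrix (Fin N) (Fin N) ℂ)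
    (h : Fintype.card κ * N < (∑ i, Matrix.kronecker (a i) (X i)).rank + N) :
    ∃ Y : ν → Matrix (Fin N) (Fin N) ℂ, (∑ i, Matrix.kronecker (a i) (Y i)).det ≠ 0 := by
  have : NeZero N := ⟨hN.ne'⟩
  set e : Fin N ≃ ZMod N := (ZMod.finEquiv N).toEquiv with he
  have key : ∀ (Z : ν → Matrix (Fin N) (Fin N) ℂ),
      (∑ i, Matrix.kronecker (a i) ((Z i).submatrix e.symm e.symm)) =
      (∑ i, Matrix.kronecker (a i) (Z i)).submatrix (Equiv.prodCongr (Equiv.refl κ) e).symm
        (Equiv.prodCongr (Equiv.refl κ) e).symm := by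
    intro Z
    ext ⟨k, r⟩ ⟨l, c⟩
    simp [Matrix.sum_apply, Matrix.kronecker_apply]
  obtain ⟨Y, hY⟩ := main_zmod a (fun i => (X i).submatrix e.symm e.symm) (by
    rw [key, Matrix.rank_submatrix]
    exact h)
  refine ⟨fun i => (Y i).submatrix e e, ?_⟩
  intro h0
  apply hY
  have h1 := key (fun i => (Y i).submatrix e e)
  have h2 : ∀ i, ((Y i).submatrix e e).submatrix e.symm e.symm = Y i := by
    intro i; ext r c; simp
  simp only [h2] at h1
  rw [h1, Matrix.det_submatrix_equiv_self, h0]

end Pool.Agent.helper89.QT
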